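import Pool.Agent.R539.SD.LowM
import Pool.Agent.R141.SD.Hi
import Pool.Agent.R117.SD.Mid
import Pool.Agent.R361.SD.PL
import Pool.Agent.R408.SD.KEY
import Pool.Agent.R278.SD.Cmp
import Pool.Agent.R334.SD.Cyc
import Pool.Agent.R554.SDX.Cnt
import Pool.Agent.R554.SDX.Rat

/-!
# MP_77e9aa_lc, Q1: the complexity of `STAR_p` for every real `p > 1`

Contributors: helper539 (project SD, the reductions), helper141, helper117, helper361, helper408,
helper334, helper278 (pieces of the reductions), helper554, helper84, helper311, helper792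
(membership in NP for rational `p`, countability).
-/

set_option autoImplicit false

namespace Pool.Agent.Results.MP_77e9aa_lc.RationalComplete

open Pool.Agent.NPC Pool.Agent.R539.SD

/-- `STAR_p` is NP-hard for every real `p > 1`, `p ≠ 2`; it is in NP for every rational `p > 1`
(so NP-complete for every rational `p > 1`, `p ≠ 2`), and it is in NP for only countably many real
`p ≥ 1`. -/
theorem result :
    (∀ p : ℝ, 1 < p → p ≠ 2 → NPHardP (Star p)) ∧
      (∀ q : ℚ, 1 < q → InNPP (Star (q : ℝ))) ∧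
        {p : ℝ | 1 ≤ p ∧ InNPP (Star p)}.Countable :=
  ⟨fun _ h1 h2 => Pool.Agent.R539.SD.all_hard Pool.Agent.R141.SD.hit Pool.Agent.R141.SD.col
    Pool.Agent.R141.SD.inf (Pool.Agent.R408.SD.key Pool.Agent.R141.SD.hit)
    Pool.Agent.R334.SD.scyc Pool.Agent.R361.SD.sloop Pool.Agent.R278.SD.cmp
    Pool.Agent.R361.SD.spoly Pool.Agent.R141.SD.hi
    (Pool.Agent.R117.SD.mid Pool.Agent.R141.SD.col Pool.Agent.R141.SD.inf) h1 h2,
    fun q hq => Pool.Agent.R554.SDX.sRatQ Pool.Agent.R141.SD.hit Pool.Agent.R141.SD.col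
      Pool.Agent.R141.SD.inf q hq,
    Pool.Agent.R554.SDX.sNN⟩

end Pool.Agent.Results.MP_77e9aa_lc.RationalComplete
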