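import Pool.Agent.R539.SD.LowM
import Pool.Agent.R539.SD.HiCopy
import Pool.Agent.R117.SD.Mid
import Pool.Agent.R361.SD.PL
import Pool.Agent.R408.SD.KEY
import Pool.Agent.R278.SD.Cmp
import Pool.Agent.R334.SD.Cyc
import Pool.Agent.R554.SDX.Cnt

/-!
# The star dichromatic number: deciding whether it is at most `p` is NP-hard for every real `p`

For every real number `p > 1`, `p ≠ 2`, it is NP-hard to decide whether the star dichromatic number
of a digraph is at most `p`; but only for countably many real `p` this problem belongs to NP.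
-/

namespace Pool.Agent.Results.MP_77e9aa_lc.StarDichromaticHard

open Pool.Agent.NPC Pool.Agent.R539.SD

/-- `STAR_p` is NP-hard for every real `p > 1` different from `2`, and it is in NP only for
countably many real `p`. -/
theorem result : (∀ p : ℝ, 1 < p → p ≠ 2 → NPHardP (Star p)) ∧
    {p : ℝ | 1 < p ∧ InNPP (Star p)}.Countable := by
  refine ⟨fun p h1 h2 => all_hard Pool.Agent.R141.SD.hit Pool.Agent.R141.SD.col
    Pool.Agent.R141.SD.inf (Pool.Agent.R408.SD.key Pool.Agent.R141.SD.hit)
    Pool.Agent.R334.SD.scyc Pool.Agent.R361.SD.sloop Pool.Agent.R278.SD.cmp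
    Pool.Agent.R361.SD.spoly Pool.Agent.R141.SD.hi
    (Pool.Agent.R117.SD.mid Pool.Agent.R141.SD.col Pool.Agent.R141.SD.inf) h1 h2, ?_⟩
  refine Pool.Agent.R554.SDX.sNN.mono ?_
  rintro p ⟨h1, h2⟩
  exact ⟨le_of_lt h1, h2⟩

end Pool.Agent.Results.MP_77e9aa_lc.StarDichromaticHard
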